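import Pool.Agent.H288.HS.Fin2
import Pool.Agent.H288.HS.T.STEP
import Pool.Agent.H288.HS.T.REAL
import Pool.Agent.H288.HS.T.CLOSE
import Pool.Agent.H288.HS.T.INEQ
import Pool.Agent.H288.HS.T.CONST
import Pool.Agent.H288.HS.T.GIN
import Pool.Agent.H288.HS.T.DELSUM
import Pool.Agent.H288.HS.T.SUBD
import Pool.Agent.H288.HS.T.NULL
import Pool.Agent.H288.HS.T.LIM
import Pool.Agent.H288.HS.T.SER
import Pool.Agent.H288.HS.T.CONV
import Pool.Agent.H288.HS.T.UP
import Pool.Agent.H288.HS.T.FAM
import Pool.Agent.H288.HS.T.PRESS
import Pool.Agent.H288.HS.T.ANA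
import Pool.Agent.H288.HS.T.MONO
import Pool.Agent.H288.HS.T.INV
import Pool.Agent.H288.HS.T.CAN
import Pool.Agent.H288.HS.T.BV
import Pool.Agent.H288.HS.T.PAIRW
import Pool.Agent.H288.HS.T.ONEW
import Pool.Agent.H288.HS.T.NEARW
import Pool.Agent.H288.HS.T.INDW
import Pool.Agent.H288.HS.T.LOGDW
import Pool.Agent.H288.HS.T.FREEWQ
import Pool.Agent.H288.HS.T.LENSJ
import Pool.Agent.H288.HS.T.LENSWG
import Pool.Agent.H288.HS.T.TOTW
import Pool.Agent.H288.HS.T.COLW
import Pool.Agent.H288.HS.T.INEQW
import Pool.Agent.H288.HS.T.GEOW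
import Pool.Agent.H288.HS.Fin3
import Pool.Agent.H288.HS.T.LENSJ3
import Pool.Agent.H288.HS.T.LENSWG3
import Pool.Agent.H288.HS.T.RAD3
import Pool.Agent.H288.HS.T.CONE3
import Pool.Agent.H288.HS.T.TOTW3
import Pool.Agent.H288.HS.T.COLW3
import Pool.Agent.H288.HS.T.INEQW3
import Pool.Agent.H288.HS.T.GEOW3
import Pool.Agent.H288.HS.T.CHAIN
import Pool.Agent.H288.HS.T.PAIR
import Pool.Agent.H288.HS.T.ONE
import Pool.Agent.H288.HS.T.NEAR
import Pool.Agent.H288.HS.T.IND
import Pool.Agent.H288.HS.T.LOGD
import Pool.Agent.H288.HS.T.FREE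
import Pool.Agent.H288.HS.T.GEO
import Pool.Agent.H288.HS.T.LENSG
import Pool.Agent.H288.HS.T.LENSD
import Pool.Agent.H288.HS.T.LENS2
import Pool.Agent.H288.HS.T.LENS3
import Pool.Agent.H288.HS.T.COL2
import Pool.Agent.H288.HS.T.COL3
import Pool.Agent.H288.HS.T.COLD
import Pool.Agent.H288.HS.T.GGE
import Pool.Agent.H288.HS.Fin6
import Pool.Agent.H288.HS.T.LENSX

/-!
# MP_09cbbd_mp: hard disks and hard spheres have no phase transition at moderate densities

Let `V` be the volume of the ball of radius `2a` (the excluded volume). For the gas of hard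
spheres of radius `a` in `ℝ^d` the pressure is real-analytic for the activities `l < t / V`, and
the free energy per particle `f(ρ)` exists and is real-analytic for the densities
`ρ < (t / (1 + t)) / V`, i.e. up to the packing fraction `t / (2^d (1 + t))`, where

* `t = (7/6) (8/7)^8 / (131/200) = 5.183...` for `d = 2` (packing fraction `0.2095...`),
* `t = (25/24) (26/25)^26 / (153/200) = 3.775...` for `d = 3` (packing fraction `0.0988...`),
* `t = e / (1 - q / 2)` for the other `d`, where `q` is the volume of the intersection of two unit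
  balls whose centres are at distance `1`, divided by the volume of the unit ball (`t = 3.112...` for
  `d = 4`).

Proof. Finite hard-core gases, on fine grids, are considered at complex activities near
`[0, t / V)`. The exclusion ball of a point `x` is cut into cliques (of diameter `R = 2a`): six
sectors of 60 degrees (`d = 2`), 24 cones (`d = 3`), or many small pieces. Removing them one after
the other gives a recursion for the ratios `W = Z(A \ N(x)) / Z(A)`. The derivative `D` of `log W`
with respect to the activity satisfies `W D² ≤ M² ∑_{z ∈ A ∩ N(x)} φ(|z - x|)`, uniformly in the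
region `A`, with the weight `φ(s R) = 19/25 + 6/25 s²` (`31/40 + 9/40 s²` for `d = 3`, `1` for the
other `d`): one step of the recursion contracts this norm, since the cliques can be removed in an
order or in the reversed order, and on average over the two orders half of the lens `N(x) ∩ N(y)`
and the whole clique of `y` are removed from `N(y)`. So the partition functions have no zeros in a
complex neighbourhood of the activity interval, the pressure is analytic there, and by Ginibre's
inequality for the compressibility and the equivalence of the ensembles so is the free energy as a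
function of the density.
-/

set_option autoImplicit false

open Pool.Agent.H288.HS

namespace Pool.Agent.Results.MP_09cbbd_mp.HardDisks

/-- **Main theorem.** Here `NoTransition d t` means: for every radius `a > 0`, for the activities
`l < t / V` the grand canonical pressure exists and is a real-analytic function of `l`, and for the
densities `ρ < t / (1 + t) / V` the canonical free energy per particle exists (in the thermodynamic
limit of cubes) and is a real-analytic function of `ρ`. -/
theorem result :
    (∀ d : ℕ, 1 ≤ d → NoTransition d (tmx d)) ∧ 5.18 < tmx 2 ∧ 3.77 < tmx 3 := by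
  have hstep : S_STEP := t_STEP
  have hreal : S_REAL := t_REAL hstep
  have hone : S_ONEW := t_ONEW hstep t_INEQ
  have hnear : S_NEARW := t_NEARW hreal t_CLOSE
  have hmain : S_MAINW := t_INDW hstep t_PAIRW hone hnear t_CONST
  have hcore : S_COREW := t_LOGDW hstep hmain
  have hlim : S_LIM := t_LIM t_NULL
  have hup : S_UP := t_UP t_CONV
  have hfree : S_FREEW := t_FREEWQ hlim t_SER t_SUM hcore
  have hfam : S_FAM := t_FAM hlim t_SER t_SUM hup t_GIN t_DEL t_SUBD
  have hgeo := t_GEOW hup t_BV t_LENSJ t_LENSWG t_TOTW t_COLW t_INEQW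
  have hgeo3 := t_GEOW3 hup t_BV t_LENSJ3 t_LENSWG3 (t_TOTW3 t_RAD3) (t_COLW3 t_CONE3 t_RAD3)
    t_INEQW3
  have hmain0 : S_MAIN := t_IND hstep t_PAIR (t_ONE (t_CHAIN hstep) t_INEQ)
    (t_NEAR hreal t_CLOSE) t_CONST
  have hfree0 : S_FREE := t_FREE hlim t_SER t_SUM (t_LOGD hstep hmain0)
  have hall : AllS := ⟨t_BV, hfam, hfree0, t_PRESS, t_ANA, t_MONO, t_INV, t_CAN,
    t_GEOQ t_LENSG hup, t_LENSD, t_LENS2, t_LENS3, t_COL2 t_CONV, t_COL3 t_CONV, t_COLD, t_GGE⟩
  exact fin_allX (fin_2W t_BV hfam t_PRESS t_ANA t_MONO t_INV t_CAN hfree hgeo)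
    (fin_3W t_BV hfam t_PRESS t_ANA t_MONO t_INV t_CAN hfree hgeo3) (fin_dX hall t_LENSX)

end Pool.Agent.Results.MP_09cbbd_mp.HardDisks
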