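import Mathlib
import Pool.Graph.R_pool_sql_team_seeded_c8625f6e.K4H96.HS.Defs
import Pool.Agent.H610.HD.Press
import Pool.Agent.H177.HD610.Split
import Pool.Agent.H349.HD610.Four
import Pool.Agent.H353.HD610.Mid

/-!
# MP_09cbbd_mp: hard disks, the equation of state up to constants at all densities

`Z (L, N)` is the partition function of `N` hard disks of radius `a` in a square of side `L`, `ρ₀` the
close-packing density, `g(ρ) = 1 - √(ρ/ρ₀)` the relative distance from close packing. There is an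
absolute constant `C` such that

* `Z (L, N) ≤ (C a δ)^(2N)` if the density is at least `(1 - δ) ρ₀` (corrected for the boundary);
* the free energy is `f(ρ) = log ρ - 1 - 2 log g(ρ) + O(1)`, uniformly in `0 < ρ < ρ₀`, in particular
  `f = -2 log (1 - ρ/ρ₀) + O(1)` near close packing;
* the pressure `p = ρ² f'(ρ)` satisfies `1/(C g(ρ)) ≤ p/ρ ≤ C/g(ρ)`;
* at a first-order transition from `ρ₁` to `ρ₂` one has `g(ρ₁) ≤ C g(ρ₂)`.

Proof of the first bound: the Voronoi cells truncated at the distance `R = 2a/√3` give Thue's theorem with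
a stability estimate: the total excess area is at most `δ L²`, and a disk of small excess has two
neighbours below it which are almost in contact with it. So a configuration, rounded to a mesh `δ`, is
determined (from below) by two distances for each good disk; the distances are `≤ C δ` on the average.
-/

set_option autoImplicit false

open Filter Set Pool.Agent.K4H96.HS

namespace Pool.Agent.Results.MP_09cbbd_mp.HardDisksClosePacking

/-- the relative distance from close packing -/
noncomputable def gap (a ρ : ℝ) : ℝ := 1 - √(ρ / closePacking 2 a)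

theorem result :
    ∃ C : ℝ, 0 < C ∧ ∀ a : ℝ, 0 < a →
      closePacking 2 a = 1 / (2 * √3 * a ^ 2) ∧
      (∀ (N : ℕ) (L δ : ℝ), 0 ≤ L → 0 < δ → δ ≤ 1 / 100 →
        (1 - δ) * (L + 4 * a / √3) ^ 2 ≤ 2 * √3 * a ^ 2 * N →
        Zpart 2 a L N ≤ (C * a * δ) ^ (2 * N)) ∧
      ∀ ρ : ℝ, 0 < ρ → ρ < closePacking 2 a →
        (gap a ρ ≤ freeSide 2 a ρ ∧ freeSide 2 a ρ ≤ C * gap a ρ ∧
          ∀ᶠ q in thermo 2 ρ, relSide 2 a q ≤ C * gap a ρ) ∧
        (∀ f : ℝ, IsFreeEnergy 2 a ρ f →
          Real.log ρ - 1 - 2 * Real.log (gap a ρ) - C ≤ f ∧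
            f ≤ Real.log ρ - 1 - 2 * Real.log (gap a ρ)) ∧
        (∀ (f : ℝ → ℝ) (f' : ℝ),
          (∀ r : ℝ, 0 < r → r < closePacking 2 a → IsFreeEnergy 2 a r (f r)) →
          HasDerivAt f f' ρ →
          1 / (C * gap a ρ) ≤ ρ * f' ∧ ρ * f' ≤ C / gap a ρ) ∧
        (∀ ρ₂ p c : ℝ, ρ < ρ₂ → ρ₂ < closePacking 2 a →
          (∀ r ∈ Icc ρ ρ₂, IsFreeEnergy 2 a r (c - p / r)) → gap a ρ ≤ C * gap a ρ₂) := by
  have hK := Pool.Agent.H610.HD.K_ge
  set K := Pool.Agent.H610.HD.K with hKdef
  have hlog : 1 ≤ Real.log (12 * K) := by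
    rw [hKdef]
    unfold Pool.Agent.H610.HD.K
    rw [Real.log_mul (by norm_num) (Real.exp_ne_zero _), Real.log_exp]
    have : 0 ≤ Real.log 12 := Real.log_nonneg (by norm_num)
    linarith
  have hK0 : 0 < K := by linarith
  have hlogle : Real.log (4 * K) ≤ Real.log (12 * K) :=
    Real.log_le_log (by positivity) (by linarith)
  set C := 18 * K * Real.log (12 * K) with hC
  have c1 : 4 * K ≤ C := by nlinarith
  have c2 : 2 * Real.log (4 * K) ≤ C := by nlinarith
  have c3 : 9 / 2 * Real.log (12 * K) ≤ C := by nlinarith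
  have hC0 : 0 < C := by linarith
  refine ⟨C, hC0, fun a ha => ?_⟩
  have hcp := Pool.Agent.H610.HD.closePacking_eq ha
  have hgap : ∀ ρ, gap a ρ = Pool.Agent.H610.HD.gap a ρ := by
    intro ρ
    unfold gap Pool.Agent.H610.HD.gap
    rw [hcp]
  have h3 := Pool.Agent.H610.HD.sqrt3_pos
  refine ⟨by rw [hcp]; rfl, ?_, ?_⟩
  · intro N L δ hL hδ hδ' hM
    have e : 2 * (Pool.Agent.H610.HD.R * a) = 4 * a / √3 := by
      unfold Pool.Agent.H610.HD.R
      field_simp
      ring
    have h1 := Pool.Agent.H610.HD.vol_conf ha N L δ hL hδ hδ' (by rw [e]; linarith)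
    unfold Zpart
    have hf : (0 : ℝ) < N.factorial := by exact_mod_cast N.factorial_pos
    rw [inv_mul_le_iff₀ hf]
    refine h1.trans ?_
    gcongr
    change K ≤ C
    linarith
  · intro ρ hρ hρ'
    rw [hcp] at hρ'
    obtain ⟨g1, g2, g3, g4⟩ := Pool.Agent.H610.HD.gap_facts ha hρ hρ'
    obtain ⟨h4, h5⟩ := Pool.Agent.H610.HD.freeSide_two ha hρ hρ'
    simp only [hgap, hcp]
    refine ⟨⟨h4, h5.trans (by gcongr), ?_⟩, ?_, ?_, ?_⟩
    · filter_upwards [Pool.Agent.H610.HD.relSide_le ha hρ hρ'] with q hq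
      refine hq.trans ?_
      nlinarith
    · intro f hf
      obtain ⟨h6, h7⟩ := Pool.Agent.H610.HD.free_two ha hρ hρ' hf
      exact ⟨by linarith, h7⟩
    · intro f f' hf hder
      obtain ⟨n1, n2, _⟩ := Pool.Agent.H610.HD.nxt_facts ha hρ hρ'
      constructor
      · have hev : ∀ᶠ r in nhdsWithin ρ (Iic ρ), IsFreeEnergy 2 a r (f r) := by
          have h8 : Ioc 0 ρ ∈ nhdsWithin ρ (Iic ρ) := Ioc_mem_nhdsLE hρ
          filter_upwards [h8] with r hr
          exact hf r hr.1 (lt_of_le_of_lt hr.2 hρ')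
        have h9 := Pool.Agent.H610.HD.pressure_lower ha f hρ hρ' hev hder.hasDerivWithinAt
        refine le_trans ?_ h9
        exact one_div_le_one_div_of_le (by positivity) (by gcongr)
      · have hmid := Pool.Agent.H353.HD610.mid
          (Pool.Agent.H349.HD610.four Pool.Agent.H177.HD610.split)
        have h9 := Pool.Agent.H610.HD.pressure_upper hmid ha f hρ hρ'
          (fun r hr => hf r (lt_of_lt_of_le hρ hr.1) (lt_of_le_of_lt hr.2 n2)) hder
        refine h9.trans ?_
        gcongr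
    · intro ρ₂ p c h12 h2 hf
      exact Pool.Agent.H610.HD.transition ha hρ h12 h2 hf

end Pool.Agent.Results.MP_09cbbd_mp.HardDisksClosePacking
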