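import Pool.Agent.H288.HS.Fin4
import Pool.Agent.H288.HS.T.STEP
import Pool.Agent.H288.HS.T.REAL
import Pool.Agent.H288.HS.T.CLOSE
import Pool.Agent.H288.HS.T.INEQ
import Pool.Agent.H288.HS.T.CONST
import Pool.Agent.H288.HS.T.GIN
import Pool.Agent.H288.HS.T.DELSUM
import Pool.Agent.H288.HS.T.SUBD
import Pool.Agent.H288.HS.T.NULL
import Pool.Agent.H288.HS.T.LIM
import Pool.Agent.H288.HS.T.SER
import Pool.Agent.H288.HS.T.CONV
import Pool.Agent.H288.HS.T.UP
import Pool.Agent.H288.HS.T.FAM
import Pool.Agent.H288.HS.T.PRESS
import Pool.Agent.H288.HS.T.ANA
import Pool.Agent.H288.HS.T.MONO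
import Pool.Agent.H288.HS.T.INV
import Pool.Agent.H288.HS.T.CAN
import Pool.Agent.H288.HS.T.BV
import Pool.Agent.H288.HS.T.ONEF
import Pool.Agent.H288.HS.T.NEARF
import Pool.Agent.H288.HS.T.INDF
import Pool.Agent.H288.HS.T.LOGDF
import Pool.Agent.H288.HS.T.FREEF
import Pool.Agent.H288.HS.T.FUNF
import Pool.Agent.H288.HS.T.PATHD
import Pool.Agent.H288.HS.T.NULLP
import Pool.Agent.H288.HS.T.LIMP
import Pool.Agent.H288.HS.T.FINP
import Pool.Agent.H288.HS.T.COUNTP
import Pool.Agent.H288.HS.T.SCALEP
import Pool.Agent.H288.HS.T.GEOF
import Pool.Agent.H288.HS.T.SEC2
import Pool.Agent.H288.HS.T.SEC3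
import Pool.Agent.H288.HS.T.SECD

/-!
# MP_09cbbd_mp: a criterion for the absence of a transition, by counting ordered paths

Let `V` be the volume of the ball of radius `2a` (the excluded volume), `d ≥ 1`. The directions of
`ℝ^d` are coloured by `r` colours such that two points of the unit ball of the same colour have
distance less than `1` (a clique colouring: six sectors in the plane, 24 cones in space); `c` is a
family of `m` such colourings, for instance one and the reversed one. `P_K` is the volume of the
paths of `K` steps of length less than `1` which respect the colourings: after the step from `p` to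
`q` the path does not visit the part of the unit ball of `p` whose colour is at most that of `q` (in
a colouring which is chosen at random for each `p`; `P_K` is an average). If

  `(t GG(r))^K P_K ≤ v^K` for some `K ≥ 1`, `GG(r) = r/(r+1) ((r+1)/(r+2))^(r+2) < 1/e`,

where `v` is the volume of the unit ball, then there is no transition below `t`: the pressure is
real-analytic for the activities `l < t / V`, and the free energy per particle `f(ρ)` exists and is
real-analytic for the densities `ρ < (t / (1 + t)) / V`. By Monte Carlo, for large `K` this reaches
`t = 6.7` for `d = 2` (six sectors) and `t = 4.5` for `d = 3` (24 cones).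

Proof. Finite hard-core gases, on fine grids, are considered at complex activities near
`[0, t / V)`. The exclusion ball of a point `x` is cut into cliques; removing them one after the
other gives a recursion for the ratios `W = Z(A \ N(x)) / Z(A)`. The derivative `D` of `log W` with
respect to the activity satisfies `W D² ≤ M² F(A, x)`, uniformly in the region `A`, where
`F = ∑_{k < K} ρ^{-k} VV_k` and `VV_k(A, x)` is the measure of the paths of `k` steps from `x` in `A`
which respect the colourings: for one of the `m` colourings one step of the recursion contracts this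
norm. So the partition functions have no zeros in a complex neighbourhood of the activity interval,
the pressure is analytic there, and by Ginibre's inequality for the compressibility and the
equivalence of the ensembles so is the free energy as a function of the density.
-/

set_option autoImplicit false

open Pool.Agent.H288.HS

namespace Pool.Agent.Results.MP_09cbbd_mp.HardSpherePaths

/-- **Main theorem.** Here `NoTransition d t` means: for every radius `a > 0`, for the activities
`l < t / V` the grand canonical pressure exists and is a real-analytic function of `l`, and for the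
densities `ρ < t / (1 + t) / V` the canonical free energy per particle exists (in the thermodynamic
limit of cubes) and is a real-analytic function of `ρ`. The last three clauses show that there are
colourings as in the criterion: the six sectors of the plane and the 24 cones in space (with the
reversed colourings), and some colouring in every dimension. -/
theorem result :
    (∀ (d r m K : ℕ) (c : Fin m → (Fin d → ℝ) → Fin r) (t : ℝ), 1 ≤ d → 1 ≤ m → 1 ≤ K →
      (∀ b, CC d r (c b)) → 0 < t →
      (t * GG r) ^ K * pathVol d r m K c 1 ≤ bv d 1 ^ K → NoTransition d t) ∧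
    (CC 2 6 sector ∧ CC 2 6 (fun p => (sector p).rev)) ∧
    (CC 3 24 cone24 ∧ CC 3 24 (fun p => (cone24 p).rev)) ∧
    (∀ d : ℕ, 1 ≤ d → ∃ (r : ℕ) (c : (Fin d → ℝ) → Fin r), CC d r c) := by
  have hstep : S_STEP := t_STEP
  have hreal : S_REAL := t_REAL hstep
  have hlim : S_LIM := t_LIM t_NULL
  have hup : S_UP := t_UP t_CONV
  have hfam : S_FAM := t_FAM hlim t_SER t_SUM hup t_GIN t_DEL t_SUBD
  have hmainF : S_MAINF := t_INDF hstep (t_ONEF hstep t_INEQ) (t_NEARF hreal t_CLOSE) t_CONST
  have hfreeF : S_FREEF := t_FREEFQ hlim t_SER t_SUM (t_LOGDF hstep hmainF)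
  have hgeoF : GeoAll := t_GEOF t_FUNF t_NULLP t_LIMP (t_COUNTP t_PATHD t_FINP) hup t_BV
  exact ⟨fin_paths t_BV hfam t_PRESS t_ANA t_MONO t_INV t_CAN hfreeF hgeoF t_SCALEP,
    t_SEC2, t_SEC3, t_SECD⟩

end Pool.Agent.Results.MP_09cbbd_mp.HardSpherePaths
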